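import Pool.Agent.Q2N.Stmts

/-!
# Q2N, row SEPL: functionals on spaces finite dimensional modulo the Laurent polynomials
-/

set_option autoImplicit false

open Module

namespace Pool.Agent.Q2N.H30

open Pool.Agent.UW Pool.Agent.Q2N

/-- a functional vanishing on `W` (of finite codimension) is a finite combination of any family of
functionals, vanishing on `W`, without common zeros outside `W` -/
theorem comb {K V : Type} [Field K] [AddCommGroup V] [Module K V] (W : Submodule K V)
    [FiniteDimensional K (V ⧸ W)] {I : Type} (g : I → V →ₗ[K] K) (hg : ∀ i, W ≤ LinearMap.ker (g i))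
    (hs : ∀ v, (∀ i, g i v = 0) → v ∈ W) (lam : V →ₗ[K] K) (hl : W ≤ LinearMap.ker lam) :
    ∃ c : I →₀ K, ∀ v, lam v = c.sum fun i a => a * g i v := by
  obtain ⟨Φ, hΦ⟩ : ∃ Φ : Submodule K (Dual K (V ⧸ W)),
      Φ = Submodule.span K (Set.range fun i => W.liftQ (g i) (hg i)) := ⟨_, rfl⟩
  have h1 : Φ.dualCoannihilator = ⊥ := by
    rw [eq_bot_iff]
    intro q hq
    obtain ⟨v, rfl⟩ := W.mkQ_surjective q
    rw [Submodule.mem_dualCoannihilator] at hq
    have h2 : v ∈ W := hs v fun i => by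
      have h3 := hq (W.liftQ (g i) (hg i)) (by
        rw [hΦ]
        exact Submodule.subset_span ⟨i, rfl⟩)
      exact h3
    rw [Submodule.mem_bot]
    exact (Submodule.Quotient.mk_eq_zero W).2 h2
  have h4 : Φ = ⊤ := by
    rw [← Subspace.dualCoannihilator_dualAnnihilator_eq (W := Φ), h1,
      Submodule.dualAnnihilator_bot]
  have h5 : W.liftQ lam hl ∈ Submodule.span K (Set.range fun i => W.liftQ (g i) (hg i)) := by
    rw [← hΦ, h4]
    exact Submodule.mem_top
  obtain ⟨c, hc⟩ := (Finsupp.mem_span_range_iff_exists_finsupp).1 h5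
  refine ⟨c, fun v => ?_⟩
  have h6 := congrArg (fun f : (V ⧸ W) →ₗ[K] K => f (W.mkQ v)) hc
  have h7 : lam v = (W.liftQ lam hl) (W.mkQ v) := (Submodule.liftQ_apply W lam v).symm
  rw [h7, ← h6]
  show (Finsupp.sum c fun i a => a • W.liftQ (g i) (hg i)) (W.mkQ v) = _
  rw [Finsupp.sum, Finsupp.sum, LinearMap.sum_apply]
  rfl

theorem sepl : SeplStmt := by
  intro hsep K _ φ Y s hY lam hlam
  set W : Submodule K ↥Y := (Rs φ).comap Y.subtype with hW
  have hfin : FiniteDimensional K (↥Y ⧸ W) := by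
    set f : ↥Y →ₗ[K] (DD φ ⧸ Rs φ) := (Rs φ).mkQ.comp Y.subtype with hf
    have hk : LinearMap.ker f = W := by
      ext d
      rw [LinearMap.mem_ker, hf, LinearMap.comp_apply, Submodule.mkQ_apply,
        Submodule.Quotient.mk_eq_zero]
      rfl
    have hr : LinearMap.range f ≤ Submodule.span K ((Rs φ).mkQ '' (s : Set (DD φ))) := by
      rintro _ ⟨d, rfl⟩
      have h1 : (d : DD φ) ∈ Rs φ ⊔ Submodule.span K (s : Set (DD φ)) := hY d.2
      obtain ⟨a, ha, b, hb, hab⟩ := Submodule.mem_sup.1 h1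
      have h2 : f d = (Rs φ).mkQ b := by
        show (Rs φ).mkQ (d : DD φ) = _
        rw [← hab, map_add]
        have h3 : (Rs φ).mkQ a = 0 := (Submodule.Quotient.mk_eq_zero _).2 ha
        rw [h3, zero_add]
      rw [h2, ← Submodule.map_span]
      exact Submodule.mem_map_of_mem hb
    have hfd : FiniteDimensional K ↥(LinearMap.range f) := by
      have h3 : FiniteDimensional K ↥(Submodule.span K ((Rs φ).mkQ '' (s : Set (DD φ)))) :=
        FiniteDimensional.span_of_finite K (s.finite_toSet.image _)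
      exact Submodule.finiteDimensional_of_le hr
    rw [← hk]
    exact LinearEquiv.finiteDimensional f.quotKerEquivRange.symm
  have hl : W ≤ LinearMap.ker lam := fun d hd => hlam d hd
  have main : ∀ P : ℤ → Prop, (∀ d : DD φ, (∀ j, P j → del φ j d = 0) → d ∈ RR φ) →
      ∃ (J : Finset ℤ) (θ : ℤ → K), (∀ j ∈ J, P j) ∧
        ∀ d : ↥Y, lam d = ∑ j ∈ J, θ j * del φ j (d : DD φ) := by
    intro P hP
    classical
    obtain ⟨c, hc⟩ := comb W (I := {j : ℤ // P j}) (fun j => (del φ j).comp Y.subtype)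
      (fun j d hd => del_RR (j : ℤ) hd) (fun d hd => hP d fun j hj => hd ⟨j, hj⟩) lam hl
    refine ⟨c.support.map ⟨Subtype.val, Subtype.val_injective⟩,
      fun j => if h : P j then c ⟨j, h⟩ else 0, ?_, ?_⟩
    · intro j hj
      obtain ⟨i, -, rfl⟩ := Finset.mem_map.1 hj
      exact i.2
    · intro d
      rw [hc d, Finset.sum_map, Finsupp.sum]
      refine Finset.sum_congr rfl fun i _ => ?_
      show c i * del φ i (d : DD φ) =
        (if h : P (i : ℤ) then c ⟨(i : ℤ), h⟩ else 0) * del φ (i : ℤ) (d : DD φ)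
      rw [dif_pos i.2]
  exact ⟨main (fun j => 1 ≤ j) fun d hd => (hsep K φ d 1).1 hd,
    main (fun j => j ≤ -1) fun d hd => (hsep K φ d (-1)).2 hd⟩

end Pool.Agent.Q2N.H30
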